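import Pool.Agent.W564.SC.Defs3

/-!
# Project SC, part LB
-/

open scoped Manifold ContDiff Topology
open Filter Set Metric

namespace Pool.Agent.W357.SC

open Pool.Agent.W564.SC Pool.Agent.H718R2.G

theorem clm_le {D : ℕ} (B : V D →L[ℝ] V D) {Λ : ℝ} (hB : ‖B‖ ≤ Λ) {x : V D} {y : ℝ}
    (hx : ‖x‖ ≤ y) (hΛ : 0 ≤ Λ) : ‖B x‖ ≤ Λ * y :=
  (B.le_opNorm x).trans (mul_le_mul hB hx (norm_nonneg x) hΛ)

theorem tri3 {E : Type*} [SeminormedAddCommGroup E] {x y z w : E} {a b c : ℝ} (h : w = x + (y + z))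
    (hx : ‖x‖ ≤ a) (hy : ‖y‖ ≤ b) (hz : ‖z‖ ≤ c) : ‖w‖ ≤ a + (b + c) := by
  rw [h]
  exact (norm_add_le _ _).trans (add_le_add hx ((norm_add_le _ _).trans (add_le_add hy hz)))

theorem tri2 {E : Type*} [SeminormedAddCommGroup E] {x y w : E} {a b : ℝ} (h : w = x + y)
    (hx : ‖x‖ ≤ a) (hy : ‖y‖ ≤ b) : ‖w‖ ≤ a + b := by
  rw [h]
  exact (norm_add_le _ _).trans (add_le_add hx hy)

/-- all data -/
structure Ctx (D m : ℕ) (Λ e U : ℝ) (c : ℕ → ℝ) (P : ℤ → Prop) (v : ℤ → V D)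
    (A : ℤ → V D →L[ℝ] V D) (u : V D) (p : ℤ) : Prop where
  P0 : P 0
  v0 : v 0 = 0
  A0 : A 0 = ContinuousLinearMap.id ℝ (V D)
  Λ16 : 16 ≤ Λ
  mΛ : (m : ℝ) ≤ Λ
  e0 : 0 < e
  eΛ : Λ * e = 1
  e16 : e ≤ 1 / 16
  hu : ‖u‖ = U
  U0 : 0 < U
  U40 : U ≤ e ^ 40
  cdef : ∀ k, c k = e ^ k * U
  bd : ∀ i : ℤ, 0 ≤ i → i ≤ m → P i → ‖A i‖ ≤ Λ
  add : ∀ i j : ℤ, 0 ≤ i → 0 ≤ j → i + j ≤ m → P j → ‖v j‖ ≤ 3 * Λ ^ 2 * U →
    ((P i ∧ ‖v i‖ ≤ 3 * Λ ^ 2 * U) ∨ (P (i + j) ∧ ‖v (i + j)‖ ≤ 3 * Λ ^ 2 * U)) →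
    P i ∧ P (i + j) ∧ ‖v (i + j) - v i - A i (v j)‖ ≤ Λ * ‖v j‖ ^ 2 ∧
      ‖A (i + j) - (A i).comp (A j)‖ ≤ Λ ^ 2 * ‖v j‖
  p0 : 0 < p
  pm : p ≤ m
  Pp : P p
  vp : v p = u
  hcon : ‖A p u - u‖ ≤ c 30

namespace Ctx

variable {D m : ℕ} {Λ e U : ℝ} {c : ℕ → ℝ} {P : ℤ → Prop} {v : ℤ → V D}
    {A : ℤ → V D →L[ℝ] V D} {u : V D} {p : ℤ} (h : Ctx D m Λ e U c P v A u p)

include h

theorem Λ0 : 0 < Λ := by linarith [h.Λ16]

theorem cpos (k : ℕ) : 0 < c k := by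
  rw [h.cdef]; exact mul_pos (pow_pos h.e0 k) h.U0

theorem cle {k l : ℕ} (hkl : k ≤ l) : c l ≤ c k := by
  rw [h.cdef, h.cdef]
  exact mul_le_mul_of_nonneg_right
    (pow_le_pow_of_le_one h.e0.le (by linarith [h.e16]) hkl) h.U0.le

theorem cs (k : ℕ) : c (k + 1) ≤ c k / 16 := by
  have h1 : c (k + 1) = e * c k := by rw [h.cdef, h.cdef]; ring
  rw [h1]
  have := mul_le_mul_of_nonneg_right h.e16 (h.cpos k).le
  linarith

theorem cle16 {k l : ℕ} (hkl : k < l) : c l ≤ c k / 16 :=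
  (h.cle hkl).trans (h.cs k)

theorem cΛ (k : ℕ) : Λ * c (k + 1) = c k := by
  rw [h.cdef, h.cdef]
  calc Λ * (e ^ (k + 1) * U) = (Λ * e) * (e ^ k * U) := by ring
    _ = e ^ k * U := by rw [h.eΛ, one_mul]

theorem cz : c 0 = U := by rw [h.cdef]; simp

theorem UU : U ^ 2 ≤ c 40 := by
  rw [h.cdef, sq]
  exact mul_le_mul_of_nonneg_right h.U40 h.U0.le

theorem ΛUU (k l : ℕ) (hkl : k + l = 40) : Λ ^ k * U ^ 2 ≤ c l := by
  have h1 : c l = Λ ^ k * c 40 := by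
    rw [h.cdef, h.cdef, ← hkl]
    calc e ^ l * U = (Λ * e) ^ k * (e ^ l * U) := by rw [h.eΛ]; simp
      _ = Λ ^ k * (e ^ (k + l) * U) := by ring
  rw [h1]
  exact mul_le_mul_of_nonneg_left h.UU (pow_nonneg h.Λ0.le _)

theorem ΛU : U ≤ Λ * U := by
  have h1 := h.Λ16
  have h2 := h.U0
  nlinarith

theorem ΛU2 : Λ * U ≤ Λ ^ 2 * U := by
  have h1 := h.Λ16
  have h2 := mul_pos h.Λ0 h.U0
  nlinarith

theorem upb : ‖u‖ ≤ 3 * Λ ^ 2 * U := by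
  rw [h.hu]
  have := h.ΛU
  have := h.ΛU2
  have := h.U0
  nlinarith

theorem vpb : ‖v p‖ ≤ 3 * Λ ^ 2 * U := by rw [h.vp]; exact h.upb

/-- Step 1 -/
theorem step1 (n : ℕ) (hn : (n : ℤ) * p ≤ m) (hnm : (n : ℝ) ≤ Λ) :
    ∀ t : ℕ, t ≤ n → P ((t : ℤ) * p) ∧ ‖A ((t : ℤ) * p) u - u‖ ≤ 2 * (t * c 29) ∧
      ‖v ((t : ℤ) * p) - (t : ℝ) • u‖ ≤ 3 * (t * c 28) := by
  intro t
  induction t with
  | zero =>
    intro _
    simp [h.P0, h.v0, h.A0]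
  | succ t ih =>
    intro ht
    obtain ⟨h1, h2, h3⟩ := ih (by omega)
    have htp : ((t : ℤ) + 1) * p ≤ m := by
      have h4 : ((t + 1 : ℕ) : ℤ) * p ≤ (n : ℤ) * p :=
        mul_le_mul_of_nonneg_right (by exact_mod_cast ht) h.p0.le
      push_cast at h4
      linarith
    have htp0 : 0 ≤ (t : ℤ) * p := mul_nonneg (Int.natCast_nonneg t) h.p0.le
    have htR : (t : ℝ) + 1 ≤ Λ := by
      have : ((t + 1 : ℕ) : ℝ) ≤ n := by exact_mod_cast ht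
      push_cast at this
      linarith
    have hnt : (0 : ℝ) ≤ t := Nat.cast_nonneg t
    have hc28 : (t : ℝ) * c 29 ≤ c 28 := by
      rw [← h.cΛ 28]; exact mul_le_mul_of_nonneg_right (by linarith) (h.cpos 29).le
    have hc27 : (t : ℝ) * c 28 ≤ c 27 := by
      rw [← h.cΛ 27]; exact mul_le_mul_of_nonneg_right (by linarith) (h.cpos 28).le
    have hvt : ‖v ((t : ℤ) * p)‖ ≤ 3 * Λ ^ 2 * U := by
      have h4 : ‖v ((t : ℤ) * p)‖ ≤ 3 * (t * c 28) + t * U := by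
        refine tri2 (by abel : v ((t : ℤ) * p) = (v ((t : ℤ) * p) - (t : ℝ) • u) + (t : ℝ) • u)
          h3 ?_
        rw [norm_smul, Real.norm_of_nonneg hnt, h.hu]
      have h5 : (t : ℝ) * U ≤ Λ * U := mul_le_mul_of_nonneg_right (by linarith) h.U0.le
      have h6 : c 27 ≤ U / 16 := by rw [← h.cz]; exact h.cle16 (by norm_num)
      have h7 := h.ΛU
      have h8 := h.ΛU2
      have h9 := h.U0
      linarith
    obtain ⟨-, g1, g2, g3⟩ := h.add ((t : ℤ) * p) p htp0 h.p0.le (by linarith) h.Pp h.vpb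
      (Or.inl ⟨h1, hvt⟩)
    have hidx : ((t + 1 : ℕ) : ℤ) * p = (t : ℤ) * p + p := by push_cast; ring
    rw [hidx]
    rw [h.vp, h.hu] at g2 g3
    have hAt : ‖A ((t : ℤ) * p)‖ ≤ Λ := h.bd _ htp0 (by linarith [h.p0]) h1
    have e1 : ‖A ((t : ℤ) * p) (A p u - u)‖ ≤ c 29 := by
      rw [← h.cΛ 29]
      exact clm_le _ hAt h.hcon h.Λ0.le
    have e2 : ‖(A ((t : ℤ) * p + p) - (A ((t : ℤ) * p)).comp (A p)) u‖ ≤ c 38 := by
      refine (ContinuousLinearMap.le_opNorm _ u).trans ?_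
      rw [h.hu]
      calc _ ≤ (Λ ^ 2 * U) * U := mul_le_mul_of_nonneg_right g3 h.U0.le
        _ = Λ ^ 2 * U ^ 2 := by ring
        _ ≤ _ := h.ΛUU 2 38 (by norm_num)
    have e3 : Λ * U ^ 2 ≤ c 39 := by
      have := h.ΛUU 1 39 (by norm_num)
      rwa [pow_one] at this
    have c3829 : c 38 ≤ c 29 := h.cle (by norm_num)
    have c3928 : c 39 ≤ c 28 := h.cle (by norm_num)
    refine ⟨g1, ?_, ?_⟩
    · refine (tri3 (?_ : A ((t : ℤ) * p + p) u - u =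
            (A ((t : ℤ) * p + p) - (A ((t : ℤ) * p)).comp (A p)) u +
            (A ((t : ℤ) * p) (A p u - u) + (A ((t : ℤ) * p) u - u))) e2 e1 h2).trans ?_
      · simp only [sub_apply, ContinuousLinearMap.comp_apply, map_sub]
        abel
      · push_cast
        linarith
    · refine (tri3 (?_ : v ((t : ℤ) * p + p) - ((t + 1 : ℕ) : ℝ) • u =
            (v ((t : ℤ) * p + p) - v ((t : ℤ) * p) - A ((t : ℤ) * p) u) +
            ((A ((t : ℤ) * p) u - u) + (v ((t : ℤ) * p) - (t : ℝ) • u))) (g2.trans e3) h2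
            h3).trans ?_
      · push_cast
        rw [add_smul, one_smul]
        abel
      · push_cast
        linarith

/-- Step 2 -/
theorem step2 (n : ℕ) (hn1 : 1 ≤ n) (b : ℤ) (hb : 0 < b) (hnb : b + (n : ℤ) * p ≤ m)
    (hnm : (n : ℝ) ≤ Λ) (hPq : P (b + (n : ℤ) * p)) (hvq : ‖v (b + (n : ℤ) * p)‖ ≤ c 40) :
    P b ∧ ‖v b‖ ≤ 3 * Λ ^ 2 * U ∧ ‖v b + (n : ℝ) • A b u‖ ≤ 4 * c 26 := by
  obtain ⟨h1, -, h3⟩ := h.step1 n (by linarith) hnm n le_rfl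
  have hnt : (0 : ℝ) ≤ n := Nat.cast_nonneg n
  have hc27 : (n : ℝ) * c 28 ≤ c 27 := by
    rw [← h.cΛ 27]; exact mul_le_mul_of_nonneg_right (by linarith) (h.cpos 28).le
  have h3' : ‖v ((n : ℤ) * p) - (n : ℝ) • u‖ ≤ 3 * c 27 := h3.trans (by linarith)
  have hvn : ‖v ((n : ℤ) * p)‖ ≤ 2 * (Λ * U) := by
    have h4 : ‖v ((n : ℤ) * p)‖ ≤ 3 * c 27 + n * U := by
      refine tri2 (by abel : v ((n : ℤ) * p) = (v ((n : ℤ) * p) - (n : ℝ) • u) + (n : ℝ) • u)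
        h3' ?_
      rw [norm_smul, Real.norm_of_nonneg hnt, h.hu]
    have h5 : (n : ℝ) * U ≤ Λ * U := mul_le_mul_of_nonneg_right (by linarith) h.U0.le
    have h6 : c 27 ≤ U / 16 := by rw [← h.cz]; exact h.cle16 (by norm_num)
    have h7 := h.ΛU
    have h9 := h.U0
    linarith
  have h8 := h.ΛU2
  have h7 := h.ΛU
  have hU0 := h.U0
  obtain ⟨g0, -, g2, g3⟩ := h.add b ((n : ℤ) * p) hb.le
    (mul_nonneg (Int.natCast_nonneg n) h.p0.le) hnb h1 (by linarith)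
    (Or.inr ⟨hPq, by
      have : c 40 ≤ U := by rw [← h.cz]; exact h.cle (by norm_num)
      linarith⟩)
  have hAb : ‖A b‖ ≤ Λ := h.bd _ hb.le (by nlinarith [h.p0, (Int.natCast_nonneg n)]) g0
  have g4 : ‖v (b + (n : ℤ) * p) - v b - A b (v ((n : ℤ) * p))‖ ≤ 4 * c 37 := by
    refine g2.trans ?_
    have h9 : ‖v ((n : ℤ) * p)‖ ^ 2 ≤ (2 * (Λ * U)) ^ 2 :=
      pow_le_pow_left₀ (norm_nonneg _) hvn 2
    have h10 := h.ΛUU 3 37 (by norm_num)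
    calc Λ * ‖v ((n : ℤ) * p)‖ ^ 2 ≤ Λ * (2 * (Λ * U)) ^ 2 :=
          mul_le_mul_of_nonneg_left h9 h.Λ0.le
      _ = 4 * (Λ ^ 3 * U ^ 2) := by ring
      _ ≤ _ := by linarith
  have g5 : ‖A b (v ((n : ℤ) * p))‖ ≤ 2 * (Λ ^ 2 * U) := by
    refine (clm_le _ hAb hvn h.Λ0.le).trans (le_of_eq (by ring))
  have hc37 : c 37 ≤ U / 16 := by rw [← h.cz]; exact h.cle16 (by norm_num)
  have hc40 : c 40 ≤ U / 16 := by rw [← h.cz]; exact h.cle16 (by norm_num)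
  refine ⟨g0, ?_, ?_⟩
  · refine (tri3 (?_ : v b = v (b + (n : ℤ) * p) + (-(v (b + (n : ℤ) * p) - v b -
      A b (v ((n : ℤ) * p))) + (- A b (v ((n : ℤ) * p))))) hvq ((norm_neg _).trans_le g4)
      ((norm_neg _).trans_le g5)).trans ?_
    · abel
    · linarith
  · have g6 : ‖A b (v ((n : ℤ) * p) - (n : ℝ) • u)‖ ≤ 3 * c 26 := by
      refine (clm_le _ hAb h3' h.Λ0.le).trans (le_of_eq ?_)
      rw [← h.cΛ 26]; ring
    have c3726 : c 37 ≤ c 26 / 16 := h.cle16 (by norm_num)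
    have c4026 : c 40 ≤ c 26 / 16 := h.cle16 (by norm_num)
    refine (tri3 (?_ : v b + (n : ℝ) • A b u = v (b + (n : ℤ) * p) + (-(v (b + (n : ℤ) * p) - v b -
      A b (v ((n : ℤ) * p))) + (- A b (v ((n : ℤ) * p) - (n : ℝ) • u)))) hvq
      ((norm_neg _).trans_le g4) ((norm_neg _).trans_le g6)).trans ?_
    · rw [map_sub, map_smul]; abel
    · linarith [h.cpos 26]

/-- Step 3 -/
theorem step3 (n : ℕ) (b : ℤ) (hb : 0 < b) (hbp : p + b ≤ m)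
    (hnm : (n : ℝ) ≤ Λ) (hPb : P b) (hvb : ‖v b‖ ≤ 3 * Λ ^ 2 * U)
    (hvn : ‖v b + (n : ℝ) • A b u‖ ≤ 4 * c 26) :
    ‖A b u - u‖ ≤ 9 * c 25 ∧ ‖v b + (n : ℝ) • u‖ ≤ 10 * c 24 := by
  have hnt : (0 : ℝ) ≤ n := Nat.cast_nonneg n
  have hAb : ‖A b‖ ≤ Λ := h.bd _ hb.le (by linarith [h.p0]) hPb
  have hAp : ‖A p‖ ≤ Λ := h.bd _ h.p0.le h.pm h.Pp
  obtain ⟨-, -, g2, g3⟩ := h.add p b h.p0.le hb.le hbp hPb hvb (Or.inl ⟨h.Pp, h.vpb⟩)
  obtain ⟨-, -, k2, k3⟩ := h.add b p hb.le h.p0.le (by linarith) h.Pp h.vpb (Or.inl ⟨hPb, hvb⟩)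
  rw [add_comm b p] at k2 k3
  rw [h.vp] at g2
  rw [h.vp, h.hu] at k2 k3
  have hvb2 : ‖v b‖ ^ 2 ≤ (3 * Λ ^ 2 * U) ^ 2 := pow_le_pow_left₀ (norm_nonneg _) hvb 2
  have g4 : ‖v (p + b) - u - A p (v b)‖ ≤ 9 * c 35 := by
    refine g2.trans ?_
    have h10 := h.ΛUU 5 35 (by norm_num)
    calc Λ * ‖v b‖ ^ 2 ≤ Λ * (3 * Λ ^ 2 * U) ^ 2 := mul_le_mul_of_nonneg_left hvb2 h.Λ0.le
      _ = 9 * (Λ ^ 5 * U ^ 2) := by ring
      _ ≤ _ := by linarith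
  have k4 : ‖v (p + b) - v b - A b u‖ ≤ c 39 := by
    refine k2.trans ?_
    have := h.ΛUU 1 39 (by norm_num)
    rwa [pow_one] at this
  have g5 : ‖(A (p + b) - (A p).comp (A b)) u‖ ≤ 3 * c 36 := by
    refine (ContinuousLinearMap.le_opNorm _ u).trans ?_
    rw [h.hu]
    have h10 := h.ΛUU 4 36 (by norm_num)
    have h11 : Λ ^ 2 * ‖v b‖ ≤ Λ ^ 2 * (3 * Λ ^ 2 * U) :=
      mul_le_mul_of_nonneg_left hvb (pow_nonneg h.Λ0.le 2)
    calc _ ≤ (Λ ^ 2 * (3 * Λ ^ 2 * U)) * U := mul_le_mul_of_nonneg_right (g3.trans h11) h.U0.le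
      _ = 3 * (Λ ^ 4 * U ^ 2) := by ring
      _ ≤ _ := by linarith
  have k5 : ‖(A (p + b) - (A b).comp (A p)) u‖ ≤ c 38 := by
    refine (ContinuousLinearMap.le_opNorm _ u).trans ?_
    rw [h.hu]
    calc _ ≤ (Λ ^ 2 * U) * U := mul_le_mul_of_nonneg_right k3 h.U0.le
      _ = Λ ^ 2 * U ^ 2 := by ring
      _ ≤ _ := h.ΛUU 2 38 (by norm_num)
  -- (A p - 1) A b u
  have l1 : ‖A b (A p u - u)‖ ≤ c 29 := by
    rw [← h.cΛ 29]; exact clm_le _ hAb h.hcon h.Λ0.le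
  have l2 : ‖A p (A b u) - A b u‖ ≤ 2 * c 29 := by
    refine (tri3 (?_ : A p (A b u) - A b u = -((A (p + b) - (A p).comp (A b)) u) +
      ((A (p + b) - (A b).comp (A p)) u + A b (A p u - u))) ((norm_neg _).trans_le g5) k5 l1).trans ?_
    · simp only [sub_apply, ContinuousLinearMap.comp_apply, map_sub]
      abel
    · have := h.cle16 (show 29 < 36 by norm_num)
      have := h.cle16 (show 29 < 38 by norm_num)
      linarith [h.cpos 29]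
  have l3 : ‖A p (v b + (n : ℝ) • A b u)‖ ≤ 4 * c 25 := by
    refine (clm_le _ hAp hvn h.Λ0.le).trans (le_of_eq ?_)
    rw [← h.cΛ 25]; ring
  have l4 : ‖(n : ℝ) • (A p (A b u) - A b u)‖ ≤ 2 * c 28 := by
    rw [norm_smul, Real.norm_of_nonneg hnt]
    calc (n : ℝ) * ‖A p (A b u) - A b u‖ ≤ Λ * (2 * c 29) :=
          mul_le_mul hnm l2 (norm_nonneg _) h.Λ0.le
      _ = 2 * c 28 := by rw [← h.cΛ 28]; ring
  have l5 : ‖A p (v b) - v b‖ ≤ 4 * c 25 + (4 * c 26 + 2 * c 28) := by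
    refine tri3 (?_ : A p (v b) - v b = A p (v b + (n : ℝ) • A b u) +
      (-(v b + (n : ℝ) • A b u) + -((n : ℝ) • (A p (A b u) - A b u)))) l3
      ((norm_neg _).trans_le hvn) ((norm_neg _).trans_le l4)
    rw [map_add, map_smul, smul_sub]
    abel
  have l6 : ‖A b u - u‖ ≤ 9 * c 25 := by
    refine (tri3 (?_ : A b u - u = -(v (p + b) - v b - A b u) +
      ((v (p + b) - u - A p (v b)) + (A p (v b) - v b))) ((norm_neg _).trans_le k4) g4 l5).trans ?_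
    · abel
    · have := h.cle16 (show 25 < 26 by norm_num)
      have := h.cle16 (show 25 < 28 by norm_num)
      have := h.cle16 (show 25 < 35 by norm_num)
      have := h.cle16 (show 25 < 39 by norm_num)
      linarith [h.cpos 25]
  refine ⟨l6, ?_⟩
  have l7 : ‖(n : ℝ) • (A b u - u)‖ ≤ 9 * c 24 := by
    rw [norm_smul, Real.norm_of_nonneg hnt]
    calc (n : ℝ) * ‖A b u - u‖ ≤ Λ * (9 * c 25) :=
          mul_le_mul hnm l6 (norm_nonneg _) h.Λ0.le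
      _ = 9 * c 24 := by rw [← h.cΛ 24]; ring
  refine (tri2 (?_ : v b + (n : ℝ) • u = (v b + (n : ℝ) • A b u) + -((n : ℝ) • (A b u - u))) hvn
    ((norm_neg _).trans_le l7)).trans ?_
  · rw [smul_sub]; abel
  · have := h.cle16 (show 24 < 26 by norm_num)
    linarith [h.cpos 24]

/-- one step `+ p` of the walk -/
theorem stepp (s N : ℝ) (hs0 : 0 ≤ s) (hsΛ : s ≤ Λ) (hN : ∀ x : V D, ‖x - N • u‖ ≤ 22 * c 21 →
    ‖x‖ ≤ 3 * Λ ^ 2 * U) (j : ℤ) (hj : 0 ≤ j) (hjm : j + p ≤ m) (hPj : P j)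
    (hA : ‖A j u - u‖ ≤ 10 * (s * c 24)) (hv : ‖v j - N • u‖ ≤ 22 * (s * c 22)) :
    P (j + p) ∧ ‖A (j + p) u - u‖ ≤ 10 * ((s + 1) * c 24) ∧
      ‖v (j + p) - (N + 1) • u‖ ≤ 22 * ((s + 1) * c 22) := by
  have hc21 : s * c 22 ≤ c 21 := by
    rw [← h.cΛ 21]; exact mul_le_mul_of_nonneg_right hsΛ (h.cpos 22).le
  have hc23 : s * c 24 ≤ c 23 := by
    rw [← h.cΛ 23]; exact mul_le_mul_of_nonneg_right hsΛ (h.cpos 24).le
  obtain ⟨-, g1, g2, g3⟩ := h.add j p hj h.p0.le hjm h.Pp h.vpb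
    (Or.inl ⟨hPj, hN _ (hv.trans (by linarith))⟩)
  rw [h.vp, h.hu] at g2 g3
  have hAj : ‖A j‖ ≤ Λ := h.bd _ hj (by linarith [h.p0]) hPj
  have e1 : ‖A j (A p u - u)‖ ≤ c 29 := by
    rw [← h.cΛ 29]; exact clm_le _ hAj h.hcon h.Λ0.le
  have e2 : ‖(A (j + p) - (A j).comp (A p)) u‖ ≤ c 38 := by
    refine (ContinuousLinearMap.le_opNorm _ u).trans ?_
    rw [h.hu]
    calc _ ≤ (Λ ^ 2 * U) * U := mul_le_mul_of_nonneg_right g3 h.U0.le
      _ = Λ ^ 2 * U ^ 2 := by ring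
      _ ≤ _ := h.ΛUU 2 38 (by norm_num)
  have e3 : Λ * U ^ 2 ≤ c 39 := by
    have := h.ΛUU 1 39 (by norm_num)
    rwa [pow_one] at this
  refine ⟨g1, ?_, ?_⟩
  · refine (tri3 (?_ : A (j + p) u - u = (A (j + p) - (A j).comp (A p)) u +
      (A j (A p u - u) + (A j u - u))) e2 e1 hA).trans ?_
    · simp only [sub_apply, ContinuousLinearMap.comp_apply, map_sub]
      abel
    · have := h.cle16 (show 24 < 38 by norm_num)
      have := h.cle16 (show 24 < 29 by norm_num)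
      linarith [h.cpos 24]
  · refine (tri3 (?_ : v (j + p) - (N + 1) • u = (v (j + p) - v j - A j u) +
      ((A j u - u) + (v j - N • u))) (g2.trans e3) hA hv).trans ?_
    · rw [add_smul, one_smul]
      abel
    · have := h.cle16 (show 22 < 39 by norm_num)
      have := h.cle16 (show 22 < 23 by norm_num)
      linarith [h.cpos 22]

/-- one step `- b` of the walk -/
theorem stepb (s N : ℝ) (hs0 : 0 ≤ s) (hsΛ : s + 1 ≤ Λ) (hN : ∀ x : V D, ‖x - N • u‖ ≤ 22 * c 21 →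
    ‖x‖ ≤ 3 * Λ ^ 2 * U) (n : ℕ) (hnm : (n : ℝ) ≤ Λ) (b j : ℤ) (hb : 0 ≤ b) (hj : 0 ≤ j)
    (hjm : j + b ≤ m) (hPb : P b) (hvb : ‖v b‖ ≤ 3 * Λ ^ 2 * U) (hAb : ‖A b u - u‖ ≤ 9 * c 25)
    (hvbn : ‖v b + (n : ℝ) • u‖ ≤ 10 * c 24) (hPj : P (j + b))
    (hA : ‖A (j + b) u - u‖ ≤ 10 * (s * c 24)) (hv : ‖v (j + b) - N • u‖ ≤ 22 * (s * c 22)) :
    P j ∧ ‖A j u - u‖ ≤ 10 * ((s + 1) * c 24) ∧
      ‖v j - (N + n) • u‖ ≤ 22 * ((s + 1) * c 22) := by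
  have hnt : (0 : ℝ) ≤ n := Nat.cast_nonneg n
  have hc21 : s * c 22 ≤ c 21 := by
    rw [← h.cΛ 21]; exact mul_le_mul_of_nonneg_right (by linarith) (h.cpos 22).le
  have hc23 : (s + 1) * c 24 ≤ c 23 := by
    rw [← h.cΛ 23]; exact mul_le_mul_of_nonneg_right hsΛ (h.cpos 24).le
  obtain ⟨g0, -, g2, g3⟩ := h.add j b hj hb hjm hPb hvb
    (Or.inr ⟨hPj, hN _ (hv.trans (by linarith))⟩)
  have hAj : ‖A j‖ ≤ Λ := h.bd _ hj (by linarith) g0
  have hvb2 : ‖v b‖ ^ 2 ≤ (3 * Λ ^ 2 * U) ^ 2 := pow_le_pow_left₀ (norm_nonneg _) hvb 2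
  have g4 : ‖v (j + b) - v j - A j (v b)‖ ≤ 9 * c 35 := by
    refine g2.trans ?_
    have h10 := h.ΛUU 5 35 (by norm_num)
    calc Λ * ‖v b‖ ^ 2 ≤ Λ * (3 * Λ ^ 2 * U) ^ 2 := mul_le_mul_of_nonneg_left hvb2 h.Λ0.le
      _ = 9 * (Λ ^ 5 * U ^ 2) := by ring
      _ ≤ _ := by linarith
  have g5 : ‖(A (j + b) - (A j).comp (A b)) u‖ ≤ 3 * c 36 := by
    refine (ContinuousLinearMap.le_opNorm _ u).trans ?_
    rw [h.hu]
    have h10 := h.ΛUU 4 36 (by norm_num)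
    have h11 : Λ ^ 2 * ‖v b‖ ≤ Λ ^ 2 * (3 * Λ ^ 2 * U) :=
      mul_le_mul_of_nonneg_left hvb (pow_nonneg h.Λ0.le 2)
    calc _ ≤ (Λ ^ 2 * (3 * Λ ^ 2 * U)) * U := mul_le_mul_of_nonneg_right (g3.trans h11) h.U0.le
      _ = 3 * (Λ ^ 4 * U ^ 2) := by ring
      _ ≤ _ := by linarith
  have g6 : ‖A j (A b u - u)‖ ≤ 9 * c 24 := by
    refine (clm_le _ hAj hAb h.Λ0.le).trans (le_of_eq ?_)
    rw [← h.cΛ 24]; ring
  have hA' : ‖A j u - u‖ ≤ 10 * ((s + 1) * c 24) := by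
    refine (tri3 (?_ : A j u - u = -((A (j + b) - (A j).comp (A b)) u) +
      (-(A j (A b u - u)) + (A (j + b) u - u))) ((norm_neg _).trans_le g5)
      ((norm_neg _).trans_le g6) hA).trans ?_
    · simp only [sub_apply, ContinuousLinearMap.comp_apply, map_sub]
      abel
    · have := h.cle16 (show 24 < 36 by norm_num)
      linarith [h.cpos 24]
  refine ⟨g0, hA', ?_⟩
  have g7 : ‖A j (v b + (n : ℝ) • u)‖ ≤ 10 * c 23 := by
    refine (clm_le _ hAj hvbn h.Λ0.le).trans (le_of_eq ?_)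
    rw [← h.cΛ 23]; ring
  have g8 : ‖(n : ℝ) • (A j u - u)‖ ≤ 10 * c 22 := by
    rw [norm_smul, Real.norm_of_nonneg hnt]
    calc (n : ℝ) * ‖A j u - u‖ ≤ Λ * (10 * c 23) :=
          mul_le_mul hnm (hA'.trans (by linarith)) (norm_nonneg _) h.Λ0.le
      _ = 10 * c 22 := by rw [← h.cΛ 22]; ring
  have g9 : ‖(n : ℝ) • (A j u - u) - A j (v b + (n : ℝ) • u)‖ ≤ 10 * c 22 + 10 * c 23 :=
    tri2 (by abel : _ = (n : ℝ) • (A j u - u) + -(A j (v b + (n : ℝ) • u))) g8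
      ((norm_neg _).trans_le g7)
  refine (tri3 (?_ : v j - (N + n) • u = -(v (j + b) - v j - A j (v b)) +
      (((n : ℝ) • (A j u - u) - A j (v b + (n : ℝ) • u)) + (v (j + b) - N • u)))
      ((norm_neg _).trans_le g4) g9 hv).trans ?_
  · rw [add_smul, map_add, map_smul, smul_sub]
    abel
  · have := h.cle16 (show 22 < 35 by norm_num)
    have := h.cle16 (show 22 < 23 by norm_num)
    linarith [h.cpos 22]

/-- Step 4 -/
theorem step4 (n : ℕ) (hn1 : 1 ≤ n) (hnm : (n : ℝ) ≤ Λ) (b : ℤ) (hb : 0 < b) (hbp : p + b ≤ m)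
    (hPb : P b) (hvb : ‖v b‖ ≤ 3 * Λ ^ 2 * U) (hAb : ‖A b u - u‖ ≤ 9 * c 25)
    (hvbn : ‖v b + (n : ℝ) • u‖ ≤ 10 * c 24) (M : ℤ) (hM : M = p + b) :
    ∀ s : ℕ, (s : ℤ) ≤ M → ∃ N : ℕ, s ≤ N ∧ N ≤ (1 + n) * s ∧ P ((s * p) % M) ∧
      ‖A ((s * p) % M) u - u‖ ≤ 10 * (s * c 24) ∧
      ‖v ((s * p) % M) - (N : ℝ) • u‖ ≤ 22 * (s * c 22) := by
  have hp0 := h.p0
  have hM0 : 0 < M := by linarith
  intro s
  induction s with
  | zero =>
    intro _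
    refine ⟨0, le_rfl, by simp, ?_⟩
    simp [h.P0, h.v0, h.A0]
  | succ s ih =>
    intro hs
    obtain ⟨N, hN1, hN2, k1, k2, k3⟩ := ih (by push_cast at hs; linarith)
    have hsm : (s : ℤ) + 1 ≤ m := by push_cast at hs; linarith
    have hsR : (s : ℝ) + 1 ≤ Λ := by
      refine le_trans ?_ h.mΛ
      exact_mod_cast hsm
    have hs0 : (0 : ℝ) ≤ s := Nat.cast_nonneg s
    have hnt : (0 : ℝ) ≤ n := Nat.cast_nonneg n
    have hNb : ∀ x : V D, ‖x - (N : ℝ) • u‖ ≤ 22 * c 21 → ‖x‖ ≤ 3 * Λ ^ 2 * U := by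
      intro x hx
      have h4 : ‖x‖ ≤ 22 * c 21 + N * U := by
        refine tri2 (by abel : x = (x - (N : ℝ) • u) + (N : ℝ) • u) hx ?_
        rw [norm_smul, Real.norm_of_nonneg (Nat.cast_nonneg N), h.hu]
      have h5 : (N : ℝ) ≤ 2 * Λ ^ 2 := by
        have h6 : (N : ℝ) ≤ (1 + n) * s := by exact_mod_cast hN2
        have h7 : (1 + (n : ℝ)) * s ≤ (1 + Λ) * Λ :=
          mul_le_mul (by linarith) (by linarith) hs0 (by linarith [h.Λ0])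
        nlinarith [h.Λ16]
      have h6 : (N : ℝ) * U ≤ 2 * Λ ^ 2 * U := mul_le_mul_of_nonneg_right h5 h.U0.le
      have h7 : c 21 ≤ c 1 / 16 := h.cle16 (by norm_num)
      have h8 : c 1 ≤ U / 16 := by rw [← h.cz]; exact h.cle16 (by norm_num)
      have h9 := h.ΛU
      have h10 := h.ΛU2
      have h11 := h.U0
      linarith
    set j : ℤ := ((s : ℤ) * p) % M with hj
    have hj0 : 0 ≤ j := Int.emod_nonneg _ hM0.ne'
    have hjM : j < M := Int.emod_lt_of_pos _ hM0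
    have hnext : (((s + 1 : ℕ) : ℤ) * p) % M = (j + p) % M := by
      rw [hj, Int.emod_add_emod]; congr 1; push_cast; ring
    rw [hnext]
    rcases lt_or_ge j b with hjb | hjb
    · have e1 : (j + p) % M = j + p := Int.emod_eq_of_lt (by linarith) (by linarith)
      rw [e1]
      obtain ⟨r1, r2, r3⟩ := h.stepp s N hs0 (by linarith) hNb j hj0 (by linarith) k1 k2 k3
      refine ⟨N + 1, by omega, ?_, r1, ?_, ?_⟩
      · nlinarith
      · push_cast; exact r2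
      · push_cast; exact r3
    · have e1 : (j + p) % M = j - b := by
        have : j + p = (j - b) + M := by rw [hM]; ring
        rw [this, Int.add_emod_right]
        exact Int.emod_eq_of_lt (by linarith) (by linarith)
      rw [e1]
      have e2 : (j - b) + b = j := by ring
      obtain ⟨r1, r2, r3⟩ := h.stepb s N hs0 hsR hNb n hnm b (j - b) hb.le (by linarith)
        (by linarith) hPb hvb hAb hvbn (by rw [e2]; exact k1) (by rw [e2]; exact k2)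
        (by rw [e2]; exact k3)
      refine ⟨N + n, by omega, ?_, r1, ?_, ?_⟩
      · nlinarith
      · push_cast; exact r2
      · push_cast; exact r3

/-- the contradiction -/
theorem final (n : ℕ) (hn1 : 1 ≤ n) (hnm : (n : ℝ) ≤ Λ) (b : ℤ) (hb : 0 ≤ b) (hbp : b < p)
    (hnb : b + (n : ℤ) * p ≤ m) (hPq : P (b + (n : ℤ) * p))
    (hvq : ‖v (b + (n : ℤ) * p)‖ ≤ c 40) : False := by
  have hU0 := h.U0
  have hp0 := h.p0
  have hn1' : (1 : ℝ) ≤ n := by exact_mod_cast hn1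
  rcases hb.eq_or_lt with hb0 | hb0
  · subst hb0
    rw [zero_add] at hPq hvq hnb
    obtain ⟨-, -, h3⟩ := h.step1 n hnb hnm n le_rfl
    have hc27 : (n : ℝ) * c 28 ≤ c 27 := by
      rw [← h.cΛ 27]; exact mul_le_mul_of_nonneg_right (by linarith) (h.cpos 28).le
    have h4 : ‖(n : ℝ) • u‖ ≤ c 40 + 3 * c 27 := by
      refine tri2 (by abel : (n : ℝ) • u = v ((n : ℤ) * p) + -(v ((n : ℤ) * p) - (n : ℝ) • u))
        hvq ((norm_neg _).trans_le (h3.trans (by linarith)))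
    rw [norm_smul, Real.norm_of_nonneg (by linarith), h.hu] at h4
    have h5 : U ≤ n * U := by nlinarith
    have h6 : c 27 ≤ U / 16 := by rw [← h.cz]; exact h.cle16 (by norm_num)
    have h7 : c 40 ≤ U / 16 := by rw [← h.cz]; exact h.cle16 (by norm_num)
    linarith
  · have hbm : p + b ≤ m := by
      have : p ≤ (n : ℤ) * p := by
        have : (1 : ℤ) ≤ n := by exact_mod_cast hn1
        nlinarith
      linarith
    obtain ⟨a1, a2, a3⟩ := h.step2 n hn1 b hb0 hnb hnm hPq hvq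
    obtain ⟨b1, b2⟩ := h.step3 n b hb0 hbm hnm a1 a2 a3
    obtain ⟨s, hs⟩ : ∃ s : ℕ, (s : ℤ) = p + b := ⟨(p + b).toNat, Int.toNat_of_nonneg (by linarith)⟩
    obtain ⟨N, hN1, -, -, -, k3⟩ := h.step4 n hn1 hnm b hb0 hbm a1 a2 b1 b2 (p + b) rfl s hs.le
    have e0 : ((s : ℤ) * p) % (p + b) = 0 := by rw [hs]; exact Int.mul_emod_right _ _
    rw [e0, h.v0, zero_sub, norm_neg, norm_smul, Real.norm_of_nonneg (Nat.cast_nonneg N), h.hu]
      at k3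
    have hs1 : 1 ≤ s := by
      have : (1 : ℤ) ≤ s := by rw [hs]; linarith
      exact_mod_cast this
    have hNR : (1 : ℝ) ≤ N := by exact_mod_cast hs1.trans hN1
    have hsR : (s : ℝ) ≤ Λ := by
      refine le_trans ?_ h.mΛ
      have : (s : ℤ) ≤ m := by rw [hs]; exact hbm
      exact_mod_cast this
    have hc21 : (s : ℝ) * c 22 ≤ c 21 := by
      rw [← h.cΛ 21]; exact mul_le_mul_of_nonneg_right hsR (h.cpos 22).le
    have h5 : U ≤ N * U := by nlinarith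
    have h7 : c 21 ≤ c 1 / 16 := h.cle16 (by norm_num)
    have h8 : c 1 ≤ U / 16 := by rw [← h.cz]; exact h.cle16 (by norm_num)
    linarith

end Ctx

theorem lb : S_LB := by
  intro D m Λ P v A hAC hΛ hm p q hp hpq hqm hPp hPq hv0 hvp hvq
  by_contra hcon
  push Not at hcon
  obtain ⟨⟨hP0, hvz, hAz⟩, hbd, hadd⟩ := hAC
  have hΛ0 : (0 : ℝ) < Λ := by linarith
  have he0 : 0 < Λ⁻¹ := inv_pos.mpr hΛ0
  have heΛ : Λ * Λ⁻¹ = 1 := mul_inv_cancel₀ hΛ0.ne'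
  have he16 : Λ⁻¹ ≤ 1 / 16 := by
    rw [inv_eq_one_div]
    exact one_div_le_one_div_of_le (by norm_num) hΛ
  have hsm : 3 * Λ ^ 2 * ‖v p‖ ≤ Λ⁻¹ ^ 2 ∧ 3 * Λ ^ 2 * ‖v p‖ ≤ 1 / 8 := by
    have h1 : 3 * Λ ^ 2 * ‖v p‖ ≤ Λ⁻¹ ^ 2 := by
      calc 3 * Λ ^ 2 * ‖v p‖ ≤ 3 * Λ ^ 2 * Λ⁻¹ ^ 40 := by gcongr
        _ = 3 * (Λ * Λ⁻¹) ^ 2 * Λ⁻¹ ^ 38 := by ring
        _ = 3 * Λ⁻¹ ^ 38 := by rw [heΛ]; ring
        _ ≤ Λ⁻¹ ^ 37 := by
            have := pow_pos he0 37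
            nlinarith
        _ ≤ Λ⁻¹ ^ 2 := pow_le_pow_of_le_one he0.le (by linarith) (by norm_num)
    refine ⟨h1, h1.trans ?_⟩
    nlinarith
  have hctx : Ctx D m Λ Λ⁻¹ ‖v p‖ (fun k => Λ⁻¹ ^ k * ‖v p‖) P v A (v p) p :=
    { P0 := hP0
      v0 := hvz
      A0 := hAz
      Λ16 := hΛ
      mΛ := hm
      e0 := he0
      eΛ := heΛ
      e16 := he16
      hu := rfl
      U0 := hv0
      U40 := hvp
      cdef := fun _ => rfl
      bd := fun i h1 h2 h3 => hbd i (by rw [abs_of_nonneg h1]; linarith) h3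
      add := fun i j h1 h2 h3 h4 h5 h6 => hadd i j (by rw [abs_of_nonneg h1]; linarith)
        (by rw [abs_of_nonneg h2]; linarith) (by rw [abs_of_nonneg (by linarith)]; linarith) h4
        (h5.trans hsm.1) (h6.imp (fun h => ⟨h.1, h.2.trans hsm.2⟩) fun h => ⟨h.1, h.2.trans hsm.2⟩)
      p0 := hp
      pm := by linarith
      Pp := hPp
      vp := rfl
      hcon := hcon.le }
  have hqab : q % p + (q / p) * p = q := by
    have := Int.emod_add_mul_ediv q p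
    linarith
  have ha1 : 1 ≤ q / p := (Int.le_ediv_iff_mul_le hp).mpr (by linarith)
  obtain ⟨n, hn⟩ : ∃ n : ℕ, (n : ℤ) = q / p := ⟨(q / p).toNat, Int.toNat_of_nonneg (by linarith)⟩
  have hb0 : 0 ≤ q % p := Int.emod_nonneg q hp.ne'
  have ham : q / p ≤ m := by nlinarith
  have hnm : (n : ℝ) ≤ Λ := by
    refine le_trans ?_ hm
    have : (n : ℤ) ≤ (m : ℤ) := by rw [hn]; exact ham
    exact_mod_cast this
  have hn1 : 1 ≤ n := by
    have : (1 : ℤ) ≤ n := by rw [hn]; exact ha1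
    exact_mod_cast this
  rw [← hn] at hqab
  exact hctx.final n hn1 hnm (q % p) hb0 (Int.emod_lt_of_pos q hp) (by rw [hqab]; exact hqm)
    (by rw [hqab]; exact hPq) (by rw [hqab]; exact hvq)

end Pool.Agent.W357.SC
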